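import Pool.Agent.D0H81.SM.Base
import Pool.Agent.D0H90.SM.Stm3

/-! Project SM, module OVP: a place at `(1, w)` specialises `θ(P)` to `P(glue c w)`. -/

set_option autoImplicit false

namespace Pool.Agent.D0H17.SM

open Pool.Agent.D0H90.SM
open MvPolynomial Matrix

universe u

variable {k : Type u} [Field k] {n d : ℕ}

theorem conj_one {K : Type u} [Field K] [Infinite K] (c : Cf n d → K) : conj 1 1 c = c := by
  apply Pool.Agent.D0H81.SM.ev_ext
  intro x
  rw [Pool.Agent.D0H81.SM.ev_conj]
  simp

/-- The ideal of the point `(1, w)`. -/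
noncomputable abbrev pw (n d : ℕ) {k : Type u} [Field k] (w : Rest n d → k) : Ideal (PP n d k) :=
  RingHom.ker (evalOne (n := n) (d := d) w)

instance pw_prime (w : Rest n d → k) : (pw n d w).IsPrime := RingHom.ker_isPrime _

/-- The local ring at `(1, w)`. -/
abbrev OO (n d : ℕ) {k : Type u} [Field k] (w : Rest n d → k) : Type u :=
  Localization.AtPrime (pw n d w)

theorem mem_pc {w : Rest n d → k} {P : PP n d k} :
    P ∈ (pw n d w).primeCompl ↔ evalOne w P ≠ 0 := Iff.rfl

/-- The value at `(1, w)`. -/
noncomputable def piO (w : Rest n d → k) : OO n d w →+* k :=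
  IsLocalization.lift (M := (pw n d w).primeCompl) (g := evalOne w)
    (fun y => (mem_pc.1 y.2).isUnit)

theorem ne_zero_of_pc {w : Rest n d → k} {P : PP n d k} (h : evalOne w P ≠ 0) : P ≠ 0 := by
  rintro rfl
  exact h (map_zero _)

/-- The embedding into `LL`. -/
noncomputable def ioO (w : Rest n d → k) : OO n d w →+* LL n d k :=
  IsLocalization.lift (M := (pw n d w).primeCompl) (g := algebraMap (PP n d k) (LL n d k))
    (fun y => by
      apply Ne.isUnit
      have h := ne_zero_of_pc (mem_pc.1 y.2)
      exact fun h0 => h ((IsFractionRing.injective (PP n d k) (LL n d k)) (by simpa using h0)))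

/-- The homomorphism into the ring of a place. -/
noncomputable def psO {w : Rest n d → k} (pl : Place w) : OO n d w →+* pl.ring :=
  IsLocalization.lift (M := (pw n d w).primeCompl)
    (g := ((algebraMap (LL n d k) (OM n d k)).comp (algebraMap (PP n d k) (LL n d k))).codRestrict
      pl.ring pl.mem)
    (fun y => by
      have h1 := pl.inv y.1 (mem_pc.1 y.2)
      have h := ne_zero_of_pc (mem_pc.1 y.2)
      have h2 : algebraMap (LL n d k) (OM n d k) (algebraMap _ _ y.1) ≠ 0 := by
        rw [Ne, map_eq_zero]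
        exact fun h0 => h ((IsFractionRing.injective (PP n d k) (LL n d k)) (by simpa using h0))
      refine IsUnit.of_mul_eq_one ⟨_, h1⟩ ?_
      apply Subtype.ext
      exact mul_inv_cancel₀ h2)

theorem piO_alg (w : Rest n d → k) (P : PP n d k) :
    piO w (algebraMap (PP n d k) (OO n d w) P) = evalOne w P :=
  IsLocalization.lift_eq _ _

theorem ioO_alg (w : Rest n d → k) (P : PP n d k) :
    ioO w (algebraMap (PP n d k) (OO n d w) P) = algebraMap (PP n d k) (LL n d k) P :=
  IsLocalization.lift_eq _ _

theorem psO_alg {w : Rest n d → k} (pl : Place w) (P : PP n d k) :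
    psO pl (algebraMap (PP n d k) (OO n d w) P) =
      ⟨algebraMap (LL n d k) (OM n d k) (algebraMap (PP n d k) (LL n d k) P), pl.mem P⟩ :=
  IsLocalization.lift_eq _ _

theorem psO_coe {w : Rest n d → k} (pl : Place w) (x : OO n d w) :
    (psO pl x : OM n d k) = algebraMap (LL n d k) (OM n d k) (ioO w x) := by
  have h : (pl.ring.subtype).comp (psO pl) =
      (algebraMap (LL n d k) (OM n d k)).comp (ioO w) := by
    apply IsLocalization.ringHom_ext (pw n d w).primeCompl
    apply RingHom.ext
    intro P
    rw [RingHom.comp_apply, RingHom.comp_apply, psO_alg]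
    rw [RingHom.comp_apply, RingHom.comp_apply, ioO_alg]
    rfl
  exact congrArg (fun f => f x) h

theorem psO_hom {w : Rest n d → k} (pl : Place w) (x : OO n d w) :
    pl.hom (psO pl x) = piO w x := by
  have h : (pl.hom).comp (psO pl) = piO w := by
    apply IsLocalization.ringHom_ext (pw n d w).primeCompl
    apply RingHom.ext
    intro P
    rw [RingHom.comp_apply, RingHom.comp_apply, psO_alg, RingHom.comp_apply, piO_alg]
    exact pl.eq P
  exact congrArg (fun f => f x) h

theorem isUnit_of_pi {w : Rest n d → k} {x : OO n d w} (h : piO w x ≠ 0) : IsUnit x := by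
  obtain ⟨⟨a, s⟩, hs⟩ := IsLocalization.surj (pw n d w).primeCompl x
  have h1 := congrArg (piO w) hs
  simp only at h1
  rw [map_mul, piO_alg, piO_alg] at h1
  have h2 : evalOne w a ≠ 0 := by
    rw [← h1]
    exact mul_ne_zero h (mem_pc.1 s.2)
  have h3 : IsUnit (algebraMap (PP n d k) (OO n d w) a) :=
    IsLocalization.map_units (OO n d w) (⟨a, mem_pc.2 h2⟩ : (pw n d w).primeCompl)
  simp only at hs
  rw [← hs] at h3
  exact isUnit_of_mul_isUnit_left h3

/-- The generic matrix over `PP`. -/
noncomputable def EP (n d : ℕ) (k : Type u) [Field k] : Matrix (Fin n) (Fin n) (PP n d k) :=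
  Matrix.of fun i j => X (Sum.inl (i, j))

/-- The generic point of the slice over `PP`. -/
noncomputable def yP (c : Cf n d → k) : Cf n d → PP n d k :=
  glue (fun a => (C (c a) : PP n d k)) (fun ρ => X (Sum.inr ρ))

theorem EP_evalOne (w : Rest n d → k) : (EP n d k).map (evalOne w) = 1 := by
  ext i j
  rw [Matrix.map_apply, EP, Matrix.of_apply, evalOne, eval_X, Sum.elim_inl]
  rw [Matrix.one_apply]

theorem det_EP (w : Rest n d → k) : evalOne w (EP n d k).det = 1 := by
  have h := RingHom.map_det (evalOne w) (EP n d k)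
  rw [h]
  have h2 : (evalOne w).mapMatrix (EP n d k) = 1 := EP_evalOne w
  rw [h2, Matrix.det_one]

theorem yP_evalOne (c : Cf n d → k) (w : Rest n d → k) (a : Cf n d) :
    evalOne w (yP c a) = glue c w a := by
  unfold yP glue
  split_ifs with h
  · simp [evalOne]
  · simp [evalOne]

/-- The generic matrix over the local ring. -/
noncomputable def EO (w : Rest n d → k) : Matrix (Fin n) (Fin n) (OO n d w) :=
  (EP n d k).map (algebraMap (PP n d k) (OO n d w))

theorem EO_unit (w : Rest n d → k) : IsUnit (EO (n := n) (d := d) w).det := by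
  have h := RingHom.map_det (algebraMap (PP n d k) (OO n d w)) (EP n d k)
  have h2 : (EO (n := n) (d := d) w).det = algebraMap (PP n d k) (OO n d w) (EP n d k).det := by
    rw [h]; rfl
  rw [h2]
  have h3 : evalOne w (EP n d k).det ≠ 0 := by
    rw [det_EP]; exact one_ne_zero
  exact IsLocalization.map_units (OO n d w) (⟨_, mem_pc.2 h3⟩ : (pw n d w).primeCompl)

theorem EO_io (w : Rest n d → k) : (EO (n := n) (d := d) w).map (ioO w) = genE n d k := by
  ext i j
  rw [Matrix.map_apply, EO, Matrix.map_apply, ioO_alg]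
  rfl

theorem EO_pi (w : Rest n d → k) : (EO (n := n) (d := d) w).map (piO w) = 1 := by
  have h := EP_evalOne (n := n) (d := d) w
  rw [← h]
  ext i j
  rw [Matrix.map_apply, EO, Matrix.map_apply, piO_alg, Matrix.map_apply]

theorem EOi_io (w : Rest n d → k) :
    ((EO (n := n) (d := d) w)⁻¹).map (ioO w) = (genE n d k)⁻¹ := by
  symm
  apply Matrix.inv_eq_left_inv
  rw [← EO_io w, ← Matrix.map_mul, Matrix.nonsing_inv_mul _ (EO_unit w)]
  exact Matrix.map_one _ (map_zero _) (map_one _)

theorem EOi_pi (w : Rest n d → k) :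
    ((EO (n := n) (d := d) w)⁻¹).map (piO w) = 1 := by
  have h : ((EO (n := n) (d := d) w)⁻¹ * EO w).map (piO w) = 1 := by
    rw [Matrix.nonsing_inv_mul _ (EO_unit w)]
    exact Matrix.map_one _ (map_zero _) (map_one _)
  rw [Matrix.map_mul, EO_pi, Matrix.mul_one] at h
  exact h

/-- The generic point of `V` over the local ring. -/
noncomputable def FO (c : Cf n d → k) (w : Rest n d → k) : Cf n d → OO n d w :=
  conj (EO w)⁻¹ (EO w) (fun a => algebraMap (PP n d k) (OO n d w) (yP c a))

theorem FO_io (c : Cf n d → k) (w : Rest n d → k) (a : Cf n d) :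
    ioO w (FO c w a) = genfL c a := by
  have h := congrFun (Pool.Agent.D0H81.SM.conj_map (ioO w)
    (fun a => algebraMap (PP n d k) (OO n d w) (yP c a)) (EO w)⁻¹ (EO w)) a
  unfold FO
  rw [← h, EO_io, EOi_io]
  unfold genfL
  congr 1
  funext b
  rw [ioO_alg]
  rfl

theorem FO_pi [CharZero k] (c : Cf n d → k) (w : Rest n d → k) (a : Cf n d) :
    piO w (FO c w a) = glue c w a := by
  have h := congrFun (Pool.Agent.D0H81.SM.conj_map (piO w)
    (fun a => algebraMap (PP n d k) (OO n d w) (yP c a)) (EO w)⁻¹ (EO w)) a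
  unfold FO
  rw [← h, EO_pi, EOi_pi, conj_one]
  rw [piO_alg, yP_evalOne]

/-- `θ` with values in the local ring. -/
noncomputable def GO (c : Cf n d → k) (w : Rest n d → k) : Pol n d k →+* OO n d w :=
  eval₂Hom ((algebraMap (PP n d k) (OO n d w)).comp C) (FO c w)

theorem GO_io (c : Cf n d → k) (w : Rest n d → k) (P : Pol n d k) :
    ioO w (GO c w P) = theta c P := by
  have h : (ioO w).comp (GO c w) = (theta c : Pol n d k →+* LL n d k) := by
    apply MvPolynomial.ringHom_ext
    · intro t
      rw [RingHom.comp_apply, GO, eval₂Hom_C, RingHom.comp_apply, ioO_alg]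
      unfold theta
      rw [RingHom.coe_coe, aeval_C]
      exact (IsScalarTower.algebraMap_apply k (PP n d k) (LL n d k) t).symm
    · intro a
      rw [RingHom.comp_apply, GO, eval₂Hom_X', FO_io]
      unfold theta
      rw [RingHom.coe_coe, aeval_X]
  exact congrArg (fun f => f P) h

theorem GO_pi [CharZero k] (c : Cf n d → k) (w : Rest n d → k) (P : Pol n d k) :
    piO w (GO c w P) = eval (glue c w) P := by
  have h : (piO w).comp (GO c w) = eval (glue c w) := by
    apply MvPolynomial.ringHom_ext
    · intro t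
      rw [RingHom.comp_apply, GO, eval₂Hom_C, RingHom.comp_apply, piO_alg, eval_C]
      unfold evalOne
      rw [eval_C]
    · intro a
      rw [RingHom.comp_apply, GO, eval₂Hom_X', FO_pi, eval_X]
  exact congrArg (fun f => f P) h

theorem ovp : S_OVP.{u} := by
  intro k _ _ n d c w pl P
  have h1 : thetaO c P = (psO pl (GO c w P) : OM n d k) := by
    rw [psO_coe, GO_io]
    rfl
  have h2 : thetaO c P ∈ pl.ring := by
    rw [h1]
    exact (psO pl (GO c w P)).2
  have h3 : (⟨thetaO c P, h2⟩ : pl.ring) = psO pl (GO c w P) := Subtype.ext h1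
  refine ⟨h2, ?_, ?_⟩
  · rw [h3, psO_hom, GO_pi]
  · intro h
    rw [← GO_pi c w P] at h
    obtain ⟨y, hy⟩ := (isUnit_of_pi h).exists_right_inv
    have h4 : thetaO c P * (psO pl y : OM n d k) = 1 := by
      rw [h1]
      have h5 := congrArg (psO pl) hy
      rw [map_mul, map_one] at h5
      exact congrArg (fun z : pl.ring => (z : OM n d k)) h5
    rw [inv_eq_of_mul_eq_one_right h4]
    exact (psO pl y).2

theorem t_OVP : S_BASE.{u} → S_OVP.{u} := fun _ => ovp

end Pool.Agent.D0H17.SM
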