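import Pool.Agent.D0H17.SM.Ovp

/-! Project SM, module THETA: `θ` is injective. -/

set_option autoImplicit false

open Finset

namespace Pool.Agent.D0H17.SM

open Pool.Agent.D0H90.SM
open MvPolynomial Matrix

universe u

/-! ### A polynomial does not vanish on all curves through a point -/

theorem hom_scale {ι : Type*} [Fintype ι] {k : Type*} [Field k] (P : MvPolynomial ι k) (s : ℕ)
    (hP : P.IsHomogeneous s) (t : PowerSeries k) (η : ι → PowerSeries k) :
    aeval (fun a => t * η a) P = t ^ s * aeval η P := by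
  rw [aeval_def, aeval_def, eval₂_eq', eval₂_eq', mul_sum]
  refine sum_congr rfl fun e he => ?_
  have h2 := hP (mem_support_iff.mp he)
  have h3 : ∑ l, e l = s := by
    rw [← h2, Finsupp.weight_apply, Finsupp.sum_fintype]
    · simp
    · simp
  simp only [mul_pow]
  rw [prod_mul_distrib, prod_pow_eq_pow_sum, h3]
  ring

theorem cc_aeval {ι : Type*} {k : Type*} [Field k] (P : MvPolynomial ι k)
    (η : ι → PowerSeries k) : PowerSeries.constantCoeff (aeval η P) =
      eval (fun a => PowerSeries.constantCoeff (η a)) P := by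
  have h : (PowerSeries.constantCoeff (R := k)).comp
      ((aeval η : MvPolynomial ι k →ₐ[k] PowerSeries k) : MvPolynomial ι k →+* PowerSeries k) =
      eval (fun a => PowerSeries.constantCoeff (η a)) := by
    apply MvPolynomial.ringHom_ext
    · intro t
      rw [RingHom.comp_apply, RingHom.coe_coe, aeval_C, eval_C]
      rw [← PowerSeries.C_eq_algebraMap, PowerSeries.constantCoeff_C]
    · intro a
      rw [RingHom.comp_apply, RingHom.coe_coe, aeval_X, eval_X]
  exact congrArg (fun f => f P) h

theorem order_lemma {ι : Type*} [Fintype ι] {k : Type*} [Field k] [Infinite k]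
    (F : MvPolynomial ι k) (hF : F ≠ 0) (c : ι → k) :
    ∃ ξ : ι → k, ∀ η : ι → PowerSeries k, (∀ a, PowerSeries.constantCoeff (η a) = ξ a) →
      aeval (fun a => PowerSeries.C (c a) + PowerSeries.X * η a) F ≠ 0 := by
  set G : MvPolynomial ι k := aeval (fun a => C (c a) + X a) F with hG
  have hG0 : G ≠ 0 := by
    intro h0
    apply hF
    apply MvPolynomial.funext
    intro x
    rw [map_zero]
    have h1 : eval (fun a => x a - c a) G = eval x F := by
      rw [hG]
      have h2 : (eval (fun a => x a - c a)).comp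
          ((aeval (fun a => (C (c a) + X a : MvPolynomial ι k)) :
            MvPolynomial ι k →ₐ[k] MvPolynomial ι k) :
            MvPolynomial ι k →+* MvPolynomial ι k) = eval x := by
        apply MvPolynomial.ringHom_ext
        · intro t
          rw [RingHom.comp_apply, RingHom.coe_coe, aeval_C, eval_C]
          rw [algebraMap_eq, eval_C]
        · intro a
          rw [RingHom.comp_apply, RingHom.coe_coe, aeval_X, eval_X, map_add, eval_C, eval_X]
          ring
      exact congrArg (fun f => f F) h2
    rw [← h1, h0, map_zero]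
  have hex : ∃ s, homogeneousComponent s G ≠ 0 := by
    by_contra hc
    push Not at hc
    apply hG0
    rw [← sum_homogeneousComponent G]
    exact sum_eq_zero fun s _ => hc s
  classical
  set r := Nat.find hex with hr
  have hr1 : homogeneousComponent r G ≠ 0 := Nat.find_spec hex
  have hr2 : ∀ s, s < r → homogeneousComponent s G = 0 := by
    intro s hs
    have := Nat.find_min hex hs
    exact not_not.mp this
  have hξ : ∃ ξ, eval ξ (homogeneousComponent r G) ≠ 0 := by
    by_contra hc
    push Not at hc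
    apply hr1
    apply MvPolynomial.funext
    intro x
    rw [hc x, map_zero]
  obtain ⟨ξ, hξ⟩ := hξ
  refine ⟨ξ, fun η hη h0 => ?_⟩
  have h1 : aeval (fun a => PowerSeries.X * η a) G =
      aeval (fun a => PowerSeries.C (c a) + PowerSeries.X * η a) F := by
    rw [hG]
    have h2 : (((aeval (fun a => PowerSeries.X * η a) :
        MvPolynomial ι k →ₐ[k] PowerSeries k)) : MvPolynomial ι k →+* PowerSeries k).comp
          (((aeval (fun a => (C (c a) + X a : MvPolynomial ι k)) :
            MvPolynomial ι k →ₐ[k] MvPolynomial ι k)) : MvPolynomial ι k →+* MvPolynomial ι k) =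
        (((aeval (fun a => PowerSeries.C (c a) + PowerSeries.X * η a) :
          MvPolynomial ι k →ₐ[k] PowerSeries k)) : MvPolynomial ι k →+* PowerSeries k) := by
      apply MvPolynomial.ringHom_ext
      · intro t
        rw [RingHom.comp_apply, RingHom.coe_coe, RingHom.coe_coe, RingHom.coe_coe, aeval_C, aeval_C,
          algebraMap_eq, aeval_C]
      · intro a
        rw [RingHom.comp_apply, RingHom.coe_coe, RingHom.coe_coe, RingHom.coe_coe, aeval_X, aeval_X,
          map_add, aeval_X, aeval_C, PowerSeries.C_eq_algebraMap]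
    exact congrArg (fun f => f F) h2
  rw [h0] at h1
  have h3 : aeval (fun a => PowerSeries.X * η a) G = PowerSeries.X ^ r *
      ∑ s ∈ range (G.totalDegree + 1), PowerSeries.X ^ (s - r) *
        aeval η (homogeneousComponent s G) := by
    conv_lhs => rw [← sum_homogeneousComponent G]
    rw [map_sum, mul_sum]
    refine sum_congr rfl fun s _ => ?_
    rw [hom_scale _ s (homogeneousComponent_isHomogeneous s G)]
    rcases lt_or_ge s r with h | h
    · rw [hr2 s h, map_zero]; ring
    · rw [← mul_assoc, ← pow_add]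
      congr 2
      omega
  rw [h1] at h3
  have h4 : ∑ s ∈ range (G.totalDegree + 1), PowerSeries.X ^ (s - r) *
        aeval η (homogeneousComponent s G) = (0 : PowerSeries k) := by
    have h5 : (PowerSeries.X : PowerSeries k) ^ r ≠ 0 := pow_ne_zero _ PowerSeries.X_ne_zero
    rcases mul_eq_zero.mp h3.symm with h | h
    · exact absurd h h5
    · exact h
  have h6 := congrArg PowerSeries.constantCoeff h4
  rw [map_sum, map_zero, sum_eq_single r] at h6
  · rw [Nat.sub_self, pow_zero, one_mul, cc_aeval] at h6
    apply hξ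
    rw [← h6]
    congr 2
    funext a
    exact (hη a).symm
  · intro s _ hs
    rcases lt_or_ge s r with h | h
    · rw [hr2 s h, map_zero, mul_zero, map_zero]
    · rw [map_mul, map_pow, PowerSeries.constantCoeff_X, zero_pow (by omega), zero_mul]
  · intro hn
    rw [mem_range, not_lt] at hn
    exact absurd (homogeneousComponent_eq_zero r G (by omega)) hr1

/-! ### Power series curves through `(1, w)` -/

variable {k : Type u} [Field k] {n d : ℕ}

/-- The curve `𝓔 = 1 + t B`, `y = w + t v`. -/
noncomputable def gB (B : Matrix (Fin n) (Fin n) k) (w v : Rest n d → k) :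
    PP n d k →+* PowerSeries k :=
  eval₂Hom (PowerSeries.C) (Sum.elim
    (fun p => PowerSeries.C (if p.1 = p.2 then 1 else 0) + PowerSeries.X * PowerSeries.C (B p.1 p.2))
    (fun ρ => PowerSeries.C (w ρ) + PowerSeries.X * PowerSeries.C (v ρ)))

theorem gB_cc (B : Matrix (Fin n) (Fin n) k) (w v : Rest n d → k) (P : PP n d k) :
    PowerSeries.constantCoeff (gB B w v P) = evalOne w P := by
  have h : (PowerSeries.constantCoeff (R := k)).comp (gB B w v) = evalOne w := by
    apply MvPolynomial.ringHom_ext
    · intro t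
      rw [RingHom.comp_apply, gB, eval₂Hom_C, PowerSeries.constantCoeff_C]
      simp [evalOne]
    · intro a
      rw [RingHom.comp_apply, gB, eval₂Hom_X']
      rcases a with p | ρ
      · simp [evalOne]
      · simp [evalOne]
  exact congrArg (fun f => f P) h

/-- The extension to the local ring. -/
noncomputable def tB (B : Matrix (Fin n) (Fin n) k) (w v : Rest n d → k) :
    OO n d w →+* PowerSeries k :=
  IsLocalization.lift (M := (pw n d w).primeCompl) (g := gB B w v)
    (fun y => by
      rw [PowerSeries.isUnit_iff_constantCoeff, gB_cc]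
      exact (mem_pc.1 y.2).isUnit)

theorem tB_alg (B : Matrix (Fin n) (Fin n) k) (w v : Rest n d → k) (P : PP n d k) :
    tB B w v (algebraMap (PP n d k) (OO n d w) P) = gB B w v P :=
  IsLocalization.lift_eq _ _

theorem tB_cc (B : Matrix (Fin n) (Fin n) k) (w v : Rest n d → k) (x : OO n d w) :
    PowerSeries.constantCoeff (tB B w v x) = piO w x := by
  have h : (PowerSeries.constantCoeff (R := k)).comp (tB B w v) = piO w := by
    apply IsLocalization.ringHom_ext (pw n d w).primeCompl
    apply RingHom.ext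
    intro P
    rw [RingHom.comp_apply, RingHom.comp_apply, tB_alg, RingHom.comp_apply, piO_alg, gB_cc]
  exact congrArg (fun f => f x) h

/-- Reduction modulo `t²`. -/
noncomputable def dn (k : Type u) [Field k] : PowerSeries k →+* DualNumber k where
  toFun f := TrivSqZeroExt.inl (PowerSeries.coeff 0 f) + TrivSqZeroExt.inr (PowerSeries.coeff 1 f)
  map_one' := by
    ext
    · simp
    · simp [PowerSeries.coeff_one]
  map_zero' := by ext <;> simp
  map_add' f g := by ext <;> simp
  map_mul' f g := by
    ext
    · simp [PowerSeries.coeff_mul]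
    · simp [PowerSeries.coeff_mul, Finset.Nat.antidiagonal_succ]

theorem dn_C (r : k) : dn k (PowerSeries.C r) = TrivSqZeroExt.inl r := by
  show TrivSqZeroExt.inl (PowerSeries.coeff 0 (PowerSeries.C r)) +
    TrivSqZeroExt.inr (PowerSeries.coeff 1 (PowerSeries.C r)) = _
  ext <;> simp [PowerSeries.coeff_C]

theorem dn_X : dn k PowerSeries.X = DualNumber.eps := by
  show TrivSqZeroExt.inl (PowerSeries.coeff 0 (PowerSeries.X : PowerSeries k)) +
    TrivSqZeroExt.inr (PowerSeries.coeff 1 (PowerSeries.X : PowerSeries k)) = _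
  ext <;> simp

theorem snd_dn (f : PowerSeries k) : TrivSqZeroExt.snd (dn k f) = PowerSeries.coeff 1 f := by
  show TrivSqZeroExt.snd (TrivSqZeroExt.inl (PowerSeries.coeff 0 f) +
    TrivSqZeroExt.inr (PowerSeries.coeff 1 f)) = _
  simp

/-- The composite `PP_(1,w) → k[ε]`. -/
noncomputable def dB (B : Matrix (Fin n) (Fin n) k) (w v : Rest n d → k) :
    OO n d w →+* DualNumber k := (dn k).comp (tB B w v)

/-- The embedding of matrices. -/
noncomputable abbrev il (k : Type u) [Field k] : k →+* DualNumber k := TrivSqZeroExt.inlHom k k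

theorem EO_dB (B : Matrix (Fin n) (Fin n) k) (w v : Rest n d → k) :
    (EO (n := n) (d := d) w).map (dB B w v) =
      1 + (DualNumber.eps : DualNumber k) • B.map (il k) := by
  ext1 i j
  rw [Matrix.map_apply, EO, Matrix.map_apply, dB, RingHom.comp_apply, tB_alg, EP, Matrix.of_apply,
    gB, eval₂Hom_X', Sum.elim_inl, map_add, map_mul, dn_C, dn_C, dn_X, Matrix.add_apply,
    Matrix.smul_apply, Matrix.map_apply, Matrix.one_apply]
  congr 1
  split_ifs <;> simp

theorem EOi_dB (B : Matrix (Fin n) (Fin n) k) (w v : Rest n d → k) :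
    ((EO (n := n) (d := d) w)⁻¹).map (dB B w v) =
      1 - (DualNumber.eps : DualNumber k) • B.map (il k) := by
  have h : ((EO (n := n) (d := d) w)⁻¹ * EO w).map (dB B w v) = 1 := by
    rw [Matrix.nonsing_inv_mul _ (EO_unit w)]
    exact Matrix.map_one _ (map_zero _) (map_one _)
  rw [Matrix.map_mul, EO_dB] at h
  have h2 : (1 + (DualNumber.eps : DualNumber k) • B.map (il k)) *
      (1 - (DualNumber.eps : DualNumber k) • B.map (il k)) = 1 := by
    have h3 : ((DualNumber.eps : DualNumber k) • B.map (il k)) *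
        ((DualNumber.eps : DualNumber k) • B.map (il k)) = 0 := by
      rw [Matrix.smul_mul, Matrix.mul_smul, smul_smul, DualNumber.eps_mul_eps, zero_smul]
    rw [mul_sub, mul_one, add_mul, one_mul, h3]
    abel
  have h4 := congrArg (fun M => M * (1 - (DualNumber.eps : DualNumber k) • B.map (il k))) h
  rw [mul_assoc, h2, mul_one, one_mul] at h4
  exact h4

theorem yP_dB (B : Matrix (Fin n) (Fin n) k) (c : Cf n d → k) (v : Rest n d → k) (a : Cf n d) :
    dB B (rest c) v (algebraMap (PP n d k) (OO n d (rest c)) (yP c a)) =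
      il k (c a) + DualNumber.eps * il k (glue (fun _ => 0) v a) := by
  rw [dB, RingHom.comp_apply, tB_alg]
  unfold yP glue
  split_ifs with h
  · rw [gB, eval₂Hom_C, dn_C, map_zero, mul_zero, add_zero]
    rfl
  · rw [gB, eval₂Hom_X', Sum.elim_inr, map_add, map_mul, dn_C, dn_C, dn_X]
    rfl

/-- The first coefficient of the curve. -/
noncomputable def xi (B : Matrix (Fin n) (Fin n) k) (c : Cf n d → k) (v : Rest n d → k) :
    Cf n d → k :=
  fun a => PowerSeries.coeff 1 (tB B (rest c) v (FO c (rest c) a))

theorem ev_add_eps (p q : Cf n d → DualNumber k) (z : Fin n → DualNumber k) (i : Fin n) :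
    ev (fun a => p a + DualNumber.eps * q a) z i =
      ev p z i + DualNumber.eps * ev q z i := by
  unfold ev
  rw [mul_sum, ← sum_add_distrib]
  refine sum_congr rfl fun m _ => ?_
  ring

theorem matvec_eps (B : Matrix (Fin n) (Fin n) k) (Z : Fin n → DualNumber k) (p q : Fin n → k)
    (h : ∀ j, Z j = il k (p j) + DualNumber.eps * il k (q j)) (i : Fin n) :
    (DualNumber.eps : DualNumber k) * (B.map (il k) *ᵥ Z) i =
      DualNumber.eps * il k ((B *ᵥ p) i) := by
  simp only [mulVec, dotProduct, Matrix.map_apply, map_sum, map_mul, mul_sum]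
  refine sum_congr rfl fun j _ => ?_
  rw [h j]
  have h6 : (DualNumber.eps : DualNumber k) * DualNumber.eps = 0 := DualNumber.eps_mul_eps
  linear_combination (il k (B i j)) * il k (q j) * h6

theorem xi_ev (B : Matrix (Fin n) (Fin n) k) (c : Cf n d → k) (v : Rest n d → k)
    (x : Fin n → k) (i : Fin n) :
    ev (xi B c v) x i = (B *ᵥ ev c x) i + ev (glue (fun _ => 0) v) x i - dev c x (B *ᵥ x) i := by
  have h1 := congrFun (Pool.Agent.D0H81.SM.ev_conj
    (fun a => dB B (rest c) v (algebraMap (PP n d k) (OO n d (rest c)) (yP c a)))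
    (((EO (n := n) (d := d) (rest c))⁻¹).map (dB B (rest c) v))
    ((EO (n := n) (d := d) (rest c)).map (dB B (rest c) v)) (fun l => il k (x l))) i
  rw [Pool.Agent.D0H81.SM.conj_map] at h1
  have h2 : (fun a => dB B (rest c) v (conj (EO (n := n) (d := d) (rest c))⁻¹ (EO (rest c))
      (fun a => algebraMap (PP n d k) (OO n d (rest c)) (yP c a)) a)) =
      fun a => dB B (rest c) v (FO c (rest c) a) := rfl
  rw [h2] at h1
  -- the argument
  have h3 : ((EO (n := n) (d := d) (rest c))⁻¹).map (dB B (rest c) v) *ᵥ (fun l => il k (x l)) =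
      (fun l => il k (x l)) + (fun l => DualNumber.eps * il k ((-(B *ᵥ x)) l)) := by
    rw [EOi_dB, Matrix.sub_mulVec, Matrix.one_mulVec, sub_eq_add_neg]
    congr 1
    funext l
    rw [Pi.neg_apply, Matrix.smul_mulVec, Pi.smul_apply, Pi.neg_apply, map_neg, mul_neg,
      smul_eq_mul]
    congr 2
    simp only [mulVec, dotProduct, Matrix.map_apply, map_sum, map_mul]
  have h4 : ∀ j, ev (fun a => dB B (rest c) v (algebraMap (PP n d k) (OO n d (rest c)) (yP c a)))
      ((fun l => il k (x l)) + (fun l => DualNumber.eps * il k ((-(B *ᵥ x)) l))) j =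
      il k (ev c x j) + DualNumber.eps *
        il k (dev c x (-(B *ᵥ x)) j + ev (glue (fun _ => 0) v) x j) := by
    intro j
    have h5 : (fun a => dB B (rest c) v (algebraMap (PP n d k) (OO n d (rest c)) (yP c a))) =
        fun a => il k (c a) + DualNumber.eps * il k (glue (fun _ => 0) v a) := by
      funext a
      exact yP_dB B c v a
    rw [h5, ev_add_eps, Pool.Agent.D0H81.SM.ev_dual, Pool.Agent.D0H81.SM.ev_dual, map_add]
    have h6 : (DualNumber.eps : DualNumber k) * DualNumber.eps = 0 := DualNumber.eps_mul_eps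
    linear_combination (il k (dev (glue (fun _ => 0) v) x (-(B *ᵥ x)) j)) * h6
  rw [h3] at h1
  have h7 : ((EO (n := n) (d := d) (rest c)).map (dB B (rest c) v) *ᵥ
      ev (fun a => dB B (rest c) v (algebraMap (PP n d k) (OO n d (rest c)) (yP c a)))
      ((fun l => il k (x l)) + (fun l => DualNumber.eps * il k ((-(B *ᵥ x)) l)))) i =
      il k (ev c x i) + DualNumber.eps * il k ((B *ᵥ ev c x) i +
        (dev c x (-(B *ᵥ x)) i + ev (glue (fun _ => 0) v) x i)) := by
    rw [EO_dB, Matrix.add_mulVec, Matrix.one_mulVec, Pi.add_apply, h4, Matrix.smul_mulVec,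
      Pi.smul_apply, smul_eq_mul]
    have h8 : (DualNumber.eps : DualNumber k) * (B.map (il k) *ᵥ
        ev (fun a => dB B (rest c) v (algebraMap (PP n d k) (OO n d (rest c)) (yP c a)))
        ((fun l => il k (x l)) + (fun l => DualNumber.eps * il k ((-(B *ᵥ x)) l)))) i =
        DualNumber.eps * il k ((B *ᵥ ev c x) i) := matvec_eps B _ _ _ h4 i
    rw [h8, map_add (il k) ((B *ᵥ ev c x) i)]
    ring
  rw [h7] at h1
  have h10 := congrArg TrivSqZeroExt.snd h1
  have h11 : TrivSqZeroExt.snd (ev (fun a => dB B (rest c) v (FO c (rest c) a))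
      (fun l => il k (x l)) i) = ev (xi B c v) x i := by
    unfold ev
    rw [TrivSqZeroExt.snd_sum]
    refine sum_congr rfl fun m _ => ?_
    rw [Pool.Agent.D0H81.SM.mon_map]
    rw [TrivSqZeroExt.snd_mul]
    simp only [TrivSqZeroExt.inlHom_apply, TrivSqZeroExt.snd_inl, TrivSqZeroExt.fst_inl, smul_zero,
      zero_add, MulOpposite.smul_eq_mul_unop, MulOpposite.unop_op]
    rw [dB, RingHom.comp_apply, snd_dn]
    rfl
  rw [h11] at h10
  rw [h10]
  have h12 : dev c x (-(B *ᵥ x)) i = - dev c x (B *ᵥ x) i := by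
    have := congrFun (Pool.Agent.D0H81.SM.dev_smul c x (B *ᵥ x) (-1)) i
    have h13 : (fun l => (-1 : k) * (B *ᵥ x) l) = -(B *ᵥ x) := by
      funext l; simp
    rw [h13] at this
    rw [this]; ring
  simp only [TrivSqZeroExt.snd_add, TrivSqZeroExt.snd_mul, TrivSqZeroExt.inlHom_apply,
    TrivSqZeroExt.snd_inl, TrivSqZeroExt.fst_inl, DualNumber.snd_eps, DualNumber.fst_eps, h12,
    smul_zero, zero_add, MulOpposite.smul_eq_mul_unop, MulOpposite.unop_op, one_mul]
  ring

/-! ### Values at the basis vectors -/

theorem zero_of_top (m : Ex n d) (i : Fin n) (h : (m.1 i : ℕ) = d) (s : Fin n) (hs : s ≠ i) :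
    (m.1 s : ℕ) = 0 := by
  have h1 := m.2
  rw [← add_sum_erase univ _ (mem_univ i), h] at h1
  have h2 : ∑ l ∈ univ.erase i, (m.1 l : ℕ) = 0 := by omega
  rw [sum_eq_zero_iff] at h2
  exact h2 s (mem_erase.2 ⟨hs, mem_univ _⟩)

theorem top_unique (m m' : Ex n d) (i : Fin n) (h : (m.1 i : ℕ) = d) (h' : (m'.1 i : ℕ) = d) :
    m = m' := by
  apply Subtype.ext
  funext s
  apply Fin.ext
  by_cases hs : s = i
  · rw [hs, h, h']
  · rw [zero_of_top m i h s hs, zero_of_top m' i h' s hs]

theorem mon_bas {R : Type*} [CommRing R] (m : Ex n d) (i : Fin n) (h : (m.1 i : ℕ) = d) :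
    mon m (bas (R := R) i) = 1 := by
  unfold mon
  refine prod_eq_one fun s _ => ?_
  by_cases hs : s = i
  · rw [hs]; simp
  · rw [zero_of_top m i h s hs, pow_zero]

theorem mon_bas_zero {R : Type*} [CommRing R] (m : Ex n d) (i : Fin n) (h : (m.1 i : ℕ) ≠ d) :
    mon m (bas (R := R) i) = 0 := by
  have h0 : ∃ s, s ≠ i ∧ (m.1 s : ℕ) ≠ 0 := by
    by_contra hc
    push Not at hc
    apply h
    have h1 := m.2
    rw [← add_sum_erase univ _ (mem_univ i), sum_eq_zero] at h1
    · omega
    · intro s hs
      exact hc s (ne_of_mem_erase hs)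
  obtain ⟨s, hs, hs0⟩ := h0
  unfold mon
  apply prod_eq_zero (mem_univ s)
  have h1 : bas (R := R) i s = 0 := Pi.single_eq_of_ne hs _
  rw [h1, zero_pow hs0]

theorem ev_bas {R : Type*} [CommRing R] (c : Cf n d → R) (l : Fin n) (m : Ex n d) (i : Fin n)
    (h : (m.1 i : ℕ) = d) : ev c (bas i) l = c (l, m) := by
  unfold ev
  rw [sum_eq_single m]
  · rw [mon_bas m i h, mul_one]
  · intro m' _ hm'
    rw [mon_bas_zero m' i (fun h' => hm' (top_unique m' m i h' h)), mul_zero]
  · intro h'; exact absurd (mem_univ _) h'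

theorem dmon_add {R : Type*} [CommRing R] (m : Ex n d) (x y y' : Fin n → R) :
    dmon m x (y + y') = dmon m x y + dmon m x y' := by
  unfold dmon
  rw [← sum_add_distrib]
  refine sum_congr rfl fun l _ => ?_
  rw [Pi.add_apply]
  ring

theorem dev_add {R : Type*} [CommRing R] (c : Cf n d → R) (x y y' : Fin n → R) :
    dev c x (y + y') = dev c x y + dev c x y' := by
  funext i
  rw [Pi.add_apply]
  unfold dev
  rw [← sum_add_distrib]
  refine sum_congr rfl fun m _ => ?_
  rw [dmon_add]
  ring

/-- The linear map of transversality. -/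
noncomputable def LamT (c : Cf n d → k) : (Fin n → Fin n → k) →ₗ[k] (Fin n → Fin n → k) where
  toFun b i := dev c (bas i) (Matrix.of b *ᵥ bas i) - Matrix.of b *ᵥ ev c (bas i)
  map_add' b b' := by
    funext i
    have h1 : Matrix.of (b + b') = Matrix.of b + Matrix.of b' := rfl
    rw [h1, Matrix.add_mulVec, Matrix.add_mulVec, dev_add, Pi.add_apply]
    abel
  map_smul' r b := by
    funext i
    have h1 : Matrix.of (r • b) = r • Matrix.of b := rfl
    have h2 : (r • Matrix.of b) *ᵥ bas (R := k) i = fun l => r * (Matrix.of b *ᵥ bas (R := k) i) l := by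
      rw [Matrix.smul_mulVec]; rfl
    rw [h1, h2, Matrix.smul_mulVec]
    rw [Pool.Agent.D0H81.SM.dev_smul]
    funext l
    simp only [Pi.sub_apply, Pi.smul_apply, smul_eq_mul, RingHom.id_apply]
    ring

theorem xi_surj [CharZero k] (c : Cf n d → k) (hc : Transv c) (ξ : Cf n d → k) :
    ∃ (B : Matrix (Fin n) (Fin n) k) (v : Rest n d → k), xi B c v = ξ := by
  have hinj : Function.Injective (LamT c) := by
    rw [injective_iff_map_eq_zero]
    intro b hb
    have h1 := hc (Matrix.of b) (fun i => by
      have h2 := congrFun hb i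
      exact sub_eq_zero.mp h2)
    funext i j
    exact congrFun (congrFun h1 i) j
  have hsur := LinearMap.injective_iff_surjective.mp hinj
  obtain ⟨b, hb⟩ := hsur (fun i => - ev ξ (bas i))
  set B : Matrix (Fin n) (Fin n) k := Matrix.of b with hB
  set ζ := xi B c (fun _ => 0) with hζ
  have hg0 : glue (fun _ => (0 : k)) (fun _ : Rest n d => (0 : k)) = fun _ => 0 := by
    funext a
    unfold glue
    split_ifs <;> rfl
  have hζe : ∀ x i, ev ζ x i = (B *ᵥ ev c x) i - dev c x (B *ᵥ x) i := by
    intro x i
    rw [hζ, xi_ev, hg0]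
    have : ev (fun _ : Cf n d => (0 : k)) x i = 0 := by
      unfold ev
      exact sum_eq_zero fun m _ => zero_mul _
    rw [this, add_zero]
  have hsub : ∀ (x : Fin n → k) i, ev (fun a => ξ a - ζ a) x i = ev ξ x i - ev ζ x i := by
    intro x i
    unfold ev
    rw [← sum_sub_distrib]
    refine sum_congr rfl fun m _ => ?_
    ring
  have hglue : glue (fun _ => (0 : k)) (rest (fun a => ξ a - ζ a)) = fun a => ξ a - ζ a := by
    funext a
    unfold glue rest
    split_ifs with h
    · obtain ⟨i, hi⟩ := h
      obtain ⟨l, m⟩ := a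
      rw [← ev_bas (fun a => ξ a - ζ a) l m i hi, hsub, hζe]
      have h3 := congrFun (congrFun hb i) l
      have h4 : LamT c b i l = dev c (bas i) (B *ᵥ bas i) l - (B *ᵥ ev c (bas i)) l := rfl
      rw [h4] at h3
      rw [Pi.neg_apply] at h3
      linear_combination -h3
    · rfl
  refine ⟨B, rest (fun a => ξ a - ζ a), ?_⟩
  apply Pool.Agent.D0H81.SM.ev_ext
  intro x
  funext i
  rw [xi_ev, hglue, hsub, hζe]
  ring

theorem ioO_inj (w : Rest n d → k) (x : OO n d w) (h : ioO w x = 0) : x = 0 := by
  obtain ⟨⟨a, s⟩, hs⟩ := IsLocalization.surj (pw n d w).primeCompl x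
  have h1 := congrArg (ioO w) hs
  rw [map_mul, ioO_alg, ioO_alg, h, zero_mul] at h1
  have h2 : a = 0 := (IsFractionRing.injective (PP n d k) (LL n d k)) (by
    rw [map_zero]; exact h1.symm)
  have h3 : x * algebraMap (PP n d k) (OO n d w) s = 0 := by
    rw [hs]
    simp only
    rw [h2, map_zero]
  exact (IsUnit.mul_left_eq_zero (IsLocalization.map_units (OO n d w) s)).mp h3

theorem theta_inj [CharZero k] (c : Cf n d → k) (hc : Transv c) :
    Function.Injective (theta c) := by
  rw [injective_iff_map_eq_zero]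
  intro F hF
  by_contra hne
  obtain ⟨ξ, hξ⟩ := order_lemma F hne c
  obtain ⟨B, v, hBv⟩ := xi_surj c hc ξ
  have h1 : GO c (rest c) F = 0 := by
    apply ioO_inj
    rw [GO_io, hF]
  have h2 : tB B (rest c) v (GO c (rest c) F) =
      aeval (fun a => tB B (rest c) v (FO c (rest c) a)) F := by
    have h : (tB B (rest c) v).comp (GO c (rest c)) =
        (((aeval (fun a => tB B (rest c) v (FO c (rest c) a)) :
          Pol n d k →ₐ[k] PowerSeries k)) : Pol n d k →+* PowerSeries k) := by
      apply MvPolynomial.ringHom_ext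
      · intro t
        rw [RingHom.comp_apply, GO, eval₂Hom_C, RingHom.comp_apply, tB_alg, RingHom.coe_coe,
          aeval_C, gB, eval₂Hom_C, PowerSeries.C_eq_algebraMap]
      · intro a
        rw [RingHom.comp_apply, GO, eval₂Hom_X', RingHom.coe_coe, aeval_X]
    exact congrArg (fun f => f F) h
  rw [h1, map_zero] at h2
  have hgr : glue c (rest c) = c := by
    funext a
    unfold glue rest
    split_ifs <;> rfl
  apply hξ (fun a => PowerSeries.mk fun p =>
    PowerSeries.coeff (p + 1) (tB B (rest c) v (FO c (rest c) a)))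
  · intro a
    rw [← PowerSeries.coeff_zero_eq_constantCoeff_apply, PowerSeries.coeff_mk]
    exact congrFun hBv a
  · rw [h2]
    congr 2
    funext a
    have h3 := PowerSeries.eq_X_mul_shift_add_const (tB B (rest c) v (FO c (rest c) a))
    rw [tB_cc, FO_pi, hgr, add_comm] at h3
    exact h3.symm

theorem theta_injective : S_THETA.{u} := fun _ _ _ _ _ _ c hc => theta_inj c hc

theorem t_THETA : S_BASE.{u} → S_THETA.{u} := fun _ => theta_injective

end Pool.Agent.D0H17.SM
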